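import Pool.Agent.H823.PI.Middle

/-!
# Two ends, spherically symmetric metric: Hawking mass, minimum, mean or moving point, maximum

Initial data `(g, h)` on `ℝ³ ∖ {0}`, where `g = φ(|x|)⁴ δ` is any spherically symmetric metric with
two ends, and `h` is a symmetric tensor field (no symmetry is assumed of `h`), satisfying the
dominant energy condition `μ ≥ |J|`.

On a centred sphere `S` with unit normal `ν` and mean curvature `H` let `β = h(ν, ·)` be the mixed
part of `h` and `h°` the trace-free part of the restriction of `h` to `S`. A point of `S` is called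
good if `(tr_S h) div_S β + H (2 |β|² + |h°|²) / 2 ≥ 0` there. The Penrose inequality
`m ≥ √(A / 16π)` is proved if there are `R₀`, `R₁`, `R₂` in `[-∞, ∞]` such that

* `R_g ≥ 0` at the radii `< R₀` (no condition on `h`);
* each centred sphere `S` with radius in `(R₀, R₁)` that is not completely trapped
  (`|tr_S h| ≤ H` at some point of `S`) satisfies one of: `tr_S h` has a zero on `S`, or is constant
  on `S`, or ONE point where `|tr_S h|` attains its MINIMUM over `S` is good, or
  `β = lam d(tr_S h)` on `S` with a function `lam ≥ 0`, or `tr_S h = H f` and `β = df / 2` on `S`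
  for a function `f` (as in the case of radial deformations of `g`, see below);
* for the radii in `(R₁, R₂)`: either there is a moving point `r c(r)` (`c` differentiable,
  `|c| = 1`), such that `(tr_S h) (div_S β + D) + H (2 |β|² + |h°|²) / 2 ≥ 0` where `|tr_S h| ≤ H`,
  where `D` is the rate of change of `tr_S h` due to the tangential motion of the point; or each of
  these spheres with `|average of tr_S h| ≤ H` satisfies the condition `MeanCond` (for instance it
  is not partially trapped and `R_g < 0` on it, with no other condition on `h`);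
* each centred sphere `S` with radius `> R₂` and with `|tr_S h| ≤ H` at all points satisfies one of:
  `tr_S h` is constant, or ONE point where `|tr_S h|` attains its maximum over `S` is good, or
  `β = lam d(tr_S h)` on `S` with a function `lam ≤ 0`.

The case `R₀ = -∞`, `R₁ = ∞` (minimum at all radii) contains the data with
`h = ½ L_X g + a ν ⊗ ν + (trace-free tangential part)` for any radial vector field `X = f ν` (the
functions `f`, `a` and the tangential part need no symmetry): there `β = df / 2`, `tr_S h = f H`.
The cases of one zone given by the maximum, by a fixed ray, or by the average are in the library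
(`PeakExpansion`, `OneGoodRay`, `ScalarSign`); the other ones, and the combinations, are new.

The proof: let `q₀ = 0 ≤ q₁ ≤ |q₂| ≤ q₃`, where `q₁` is the minimum of `|tr_S h|`, `q₂` the average
of `tr_S h` or its value at the moving point, and `q₃` the maximum of `|tr_S h|`. The functions
`F_i = ρ (1 - ρ² H² / 4) + ρ³ q_i² / 4` (`ρ` the area radius) are nondecreasing in their zones
outside the last sphere with `|q_i| ≥ H`, where `F_i = ρ`. We have `F_0 ≤ F_1 ≤ F_2 ≤ F_3`, so that
one can pass to the next function at the end of each zone, and the limit of `F_i` is `2 m`. For the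
minimum the minimum points are used as upper barriers on the left. If `β = lam d(tr_S h)`, the
divergence of `β` has the sign of `lam (tr_S h)` at the minima of `|tr_S h|`; this is proved with the
mean value theorem on the great circles (`h` is only `C¹`, and `lam` is arbitrary).
-/

set_option autoImplicit false

namespace Pool.Agent.Results.MP_ede089_mp.FourZones

open Pool.Agent.K4H63.PI Pool.Agent.H823.PI Filter Topology

/-- The least area of the centred spheres (these are among the surfaces separating the two
ends). -/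
noncomputable def leastArea (φ : ℝ → ℝ) : ℝ := sInf (sphereArea φ '' Set.Ioi 0)

theorem result (φ : ℝ → ℝ) (h : E → Matrix (Fin 3) (Fin 3) ℝ) (m : ℝ)
    -- `φ` is positive and `C²` on `(0, ∞)`; `h` is symmetric and `C¹` on `ℝ³ ∖ {0}`
    (hφ : Good φ) (hh : Tensor h)
    -- the end at infinity is asymptotically flat with total mass `m`
    (flat : FlatEnd φ m) (decay : Decay h)
    -- the area radius tends to infinity in the second end `x → 0`
    (second : Tendsto (fun r => (φ r) ^ 2 * r) (𝓝[>] 0) atTop)
    -- the dominant energy condition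
    (dec : ∀ x : E, x ≠ 0 → momentumNorm (metric φ) h x ≤ energy (metric φ) h x)
    -- the radii which separate the zones
    (R₀ R₁ R₂ : EReal)
    -- the core: nonnegative scalar curvature
    (core : ∀ x : E, x ≠ 0 → (‖x‖ : EReal) < R₀ → 0 ≤ scal (metric φ) x)
    -- the inner zone: spheres that are not completely trapped
    (inner : ∀ r : ℝ, 0 < r → R₀ < r → (r : EReal) < R₁ →
      (∃ v : E, ‖v‖ = 1 ∧ |trS φ h (r • v)| ≤ sphereH φ r) → InnerCond φ h r)
    -- the middle zone: a moving point, or the average
    (middle : (∃ c : ℝ → E, (∀ r, 0 < r → ‖c r‖ = 1 ∧ DifferentiableAt ℝ c r) ∧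
        ∀ r : ℝ, 0 < r → R₁ < r → (r : EReal) < R₂ →
          |trS φ h (r • c r)| ≤ sphereH φ r → CurveAt φ h c r) ∨
      ∀ r : ℝ, 0 < r → R₁ < r → (r : EReal) < R₂ →
        |sphAvg (trS φ h) r| ≤ sphereH φ r → MeanCond φ h r)
    -- the outer zone: spheres that are not partially trapped
    (outer : ∀ r : ℝ, 0 < r → R₂ < r →
      (∀ v : E, ‖v‖ = 1 → |trS φ h (r • v)| ≤ sphereH φ r) → OuterCond φ h r) :
    Real.sqrt (leastArea φ / (16 * Real.pi)) ≤ m := by
  obtain ⟨r₁, hr₁, hneg⟩ := exists_neg hφ second
  have hp := hφ.pos r₁ hr₁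
  have hH : sphereH φ r₁ ≤ 0 := by
    rw [sphereH_eq hφ hr₁]
    exact div_nonpos_of_nonpos_of_nonneg (by linarith) (by positivity)
  have hdec : ∀ x : E, r₁ ≤ ‖x‖ → momentumNorm (metric φ) h x ≤ energy (metric φ) h x :=
    fun x hx => dec x (norm_pos_iff.1 (hr₁.trans_le hx))
  have gen : ∀ q₂ : ℝ → ℝ, Between h q₂ →
      (∀ r : ℝ, r₁ < r → R₁ < r → (r : EReal) < R₂ →
        |r * q₂ r| < 2 * (φ r) ^ 2 * pp φ r → ∃ g', HasDerivAt (FF φ q₂) g' r ∧ 0 ≤ g') →
      ∃ r₀, r₁ ≤ r₀ ∧ Real.sqrt (sphereArea φ r₀ / (16 * Real.pi)) ≤ m := by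
    intro q₂ hq₂ hm
    refine zones_theorem hφ hh flat decay hr₁ hdec R₀ R₁ R₂ hq₂
      (fun x hx hR => core x (norm_pos_iff.1 (hr₁.trans hx)) hR)
      (fun r hr hR hR' hu => ?_) hm (fun r hr hR hu => ?_)
      (fun _ => hH) (fun _ _ w _ => hH.trans (abs_nonneg _)) (fun _ _ => ?_)
      (fun _ => ⟨EuclideanSpace.single 0 1, by simp, hH.trans (abs_nonneg _)⟩)
    · have h0 := hr₁.trans hr
      obtain ⟨v, hv, hvu⟩ := hu
      exact inner_good hφ hh h0 ((abs_nonneg _).trans hvu) (inner r h0 hR hR' ⟨v, hv, hvu⟩)
    · have h0 := hr₁.trans hr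
      have he : ‖(EuclideanSpace.single 0 1 : E)‖ = 1 := by simp
      exact outer_good hφ hh h0 ((abs_nonneg _).trans (hu _ he)) (outer r h0 hR hu)
    · refine le_trans ?_ (abs_nonneg _)
      exact mul_nonpos_of_nonneg_of_nonpos (by positivity) hneg.le
  obtain ⟨r₀, h1, h2⟩ : ∃ r₀, r₁ ≤ r₀ ∧ Real.sqrt (sphereArea φ r₀ / (16 * Real.pi)) ≤ m := by
    rcases middle with ⟨c, hc, hmid⟩ | hmid
    · refine gen _ (between_curve hh hc) fun r hr hR hR' hu => ?_
      have h0 := hr₁.trans hr
      exact curve_deriv hφ hh (fun s hs => (hc s hs).1) h0 (hc r h0).2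
        (hdec _ (by rw [ray_norm (hc r h0).1 h0]; exact hr.le)) hu.le
        (hmid r h0 hR hR' (untr hφ h h0 (hc r h0).1 hu.le))
    · refine gen _ (between_avg hh) fun r hr hR hR' hu => ?_
      have h0 := hr₁.trans hr
      exact mean_deriv hφ hh h0
        (fun w hw => hdec _ (by rw [ray_norm hw h0]; exact hr.le)) hu.le (hmid r h0 hR hR')
  refine le_trans (Real.sqrt_le_sqrt ?_) h2
  have h3 : leastArea φ ≤ sphereArea φ r₀ := by
    refine csInf_le ⟨0, ?_⟩ ⟨r₀, hr₁.trans_le h1, rfl⟩
    rintro _ ⟨r, _, rfl⟩
    unfold sphereArea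
    positivity
  have := Real.pi_pos
  exact div_le_div_of_nonneg_right h3 (by positivity)

end Pool.Agent.Results.MP_ede089_mp.FourZones
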