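import Pool.Agent.H921.QW.Ext

/-!
# The Penrose inequality for data with several ends, quasi-spherical exterior region

`(M, g, h)` is any initial data set, of which only an exterior region `{|x| > r₀}`, `r₀ ≥ 0`, of the
special end is described: there `g = N² ds² + ρ(s)² dσ²`, where `s = |x|`, `dσ²` is the round metric
of the unit sphere, `ρ` is a positive function and **the lapse `N(x)` is an arbitrary positive
function**, without any symmetry (`gij`; the quasi-spherical metrics of Bartnik), and `h` is a symmetric
tensor. The special end `|x| → ∞` is asymptotically flat with the total mass `m` (`flux` is the flux of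
the ADM mass as in the problem file, computed from the components of the metric; the coordinate is
normalised by `ρ(s) = s` for large `s`). Instead of the dominant energy condition we only assume its
consequence `|J(ν)| ≤ μ`, `ν` the unit normal of the spheres, in the exterior region.

The energy density is `μ = (R - |h|² + (tr h)²) / 2` (`muQ`), where `|h|²` and `tr h` are computed with
the inverse metric `ginv`, and the scalar curvature (`scalQ`) is given by the equations of Gauss and
Riccati for the spheres, whose mean curvature is `H = 2 ρ' / (ρ N)` (`Hs`) and whose second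
fundamental form is `(H / 2) g`:
`R = 2 / ρ² - 3 H² / 2 - 2 ν(H) - 2 Δ N / (N ρ²)`, `Δ` the Laplace operator of the unit sphere
(`lapS`; the sum of the squares of the three rotations). The normal component of
`J = div (h - (tr h) g)` is (`Jnu`) `J(ν) = H (h(ν, ν) - tr_S h / 2) - ν(tr_S h) + N⁻² div_S (N² h(ν, ·))`.

**The condition on `h`** is one inequality for each sphere `S : |x| = s`. Let
`c = ∫ H tr_S h / ∫ H²` over `S` and `e = tr_S h - c H` (`dev`), so `∫ H e = 0`; in the code
`c = ρ kap / ρ'`. The condition is (`avg`)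
`∫_S e (2 h(ν, ν) + e / 2 + 2 c ν(log N)) ≤ 0` for each sphere with `H ≥ 0` and `|c| ≤ 1`.
It holds if the ratio `tr_S h / H` is constant on each sphere (`e = 0`), whatever all other components
of `h` are, and for a radial lapse it holds for instance if `tr h = 0`.

Nothing is assumed about the rest of `M`, which contains the other ends; there are two cases: `ρ → ∞`
as `|x| → r₀` (two ends, for instance `M = ℝ³ \ {0}` and `r₀ = 0`), or at least one of the spheres
`|x| = s`, `s > r₀`, has `ρ' ≤ ρ |kap|`, that is `H ≤ 0` or `|c| ≥ 1` (the rest of `M` may then have any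
topology and any number of ends).

**Theorem.** The last sphere `|x| = t₁` with `ρ' ≤ ρ |kap|` separates the special end from all other
ends and has area at most `16 π m²`. So `m ≥ √(A / 16π)` for the least area `A` that separates the
special end from the other ends.

**Proof.** Put `m(s) = (ρ / 2) (1 - (ρ'² - ρ² β²) ⟨N⁻²⟩)`, `β = kap`, where `⟨ ⟩` is the mean value
over the sphere `|x| = s`. With `η = h(ν, ·)` restricted to the sphere and the trace-free part `σ` of `h`
on the sphere the constraint equations give (`ident`, `ident2`, `ptw`, `hmb`, `mb_nonneg`)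
`m' = ⟨(ρ²/2) (ρ' μ - ρ β J(ν)) + ρ² ρ' |σ|² / 4 + ρ² ρ' |η|² / 2 + (ρ³ β / 2) N⁻² div (N² η) + (ρ' / 2) Δ N / N⟩`
minus `ρ² avg / 4`; here the derivative of `tr_S h` is removed by the derivative of the relation
`∫ H e = 0`. Integration by parts over the sphere (the derivatives along rotations have mean value zero)
gives `⟨Δ N / N⟩ = ρ² ⟨|d log N|²⟩` and `⟨N⁻² div (N² η)⟩ = 2 ⟨η · d log N⟩`, so the last three terms are
`(ρ² / 2) ⟨ρ' |η|² + 2 ρ β η · d log N + ρ' |d log N|²⟩`, which is nonnegative if `ρ |β| ≤ ρ'`: **the shift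
terms of the momentum constraint are absorbed by the gradient of the lapse**. So `m(s)` is monotone
outside of the last sphere with `ρ' = ρ |β|`, where it is `ρ / 2`.

For a radial lapse `N` on `ℝ³ \ {0}` see the library (`SphericalMetric`, `RotationAverages`); there the
derivative of the mass aspect has no terms with the gradient of the lapse. The lemmas on mean values
over spheres are those of the library (helper774), the flux was computed by helper62.
-/

set_option autoImplicit false

namespace Pool.Agent.Results.MP_ede089_mp.QuasiSphericalData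

open Filter Topology MeasureTheory Pool.Agent.N795.PI Pool.Agent.H921.QP Pool.Agent.H921.QX
  Pool.Agent.H921.QW

/-- **The Penrose inequality for data with several ends, quasi-spherical exterior region.** -/
theorem result (N : E3 → ℝ) (ρ : ℝ → ℝ) (h : Fin 3 → Fin 3 → E3 → ℝ) (r0 m : ℝ)
    (hr0 : 0 ≤ r0) (D : IsExt N ρ h r0 m)
    (dec : ∀ x : E3, r0 < ‖x‖ → |Pool.Agent.H921.QP.Jnu N ρ h x| ≤ muQ N ρ h x)
    (havg : ∀ t : ℝ, r0 < t → ρ t * |kap N ρ h t| ≤ deriv ρ t → avg N ρ h t ≤ 0)
    (hinner : Tendsto ρ (𝓝[>] r0) atTop ∨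
      ∃ t : ℝ, r0 < t ∧ deriv ρ t ≤ ρ t * |kap N ρ h t|) :
    (∃ t1 : ℝ, r0 < t1 ∧ deriv ρ t1 = ρ t1 * |kap N ρ h t1| ∧
      (∀ t : ℝ, t1 < t → ρ t * |kap N ρ h t| < deriv ρ t) ∧
      4 * Real.pi * ρ t1 ^ 2 ≤ 16 * Real.pi * m ^ 2) ∧
    ∀ A : ℝ, (∀ t : ℝ, r0 < t → A ≤ 4 * Real.pi * ρ t ^ 2) →
      Real.sqrt (A / (16 * Real.pi)) ≤ m := by
  obtain ⟨s, hs, hst⟩ : ∃ s : ℝ, r0 < s ∧ deriv ρ s ≤ ρ s * |kap N ρ h s| := by
    rcases hinner with h1 | h1
    · exact exists_small hr0 D h1
    · exact h1
  obtain ⟨t1, hle, h1, h2, hm⟩ := sphereW hr0 D hs (fun y hy => dec y (hs.trans hy))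
    (fun t ht hw => havg t (hs.trans ht) hw) hst
  have ht1 : r0 < t1 := hs.trans_le hle
  have hr := D.posR t1 ht1
  refine ⟨⟨t1, ht1, h1, h2, ?_⟩, fun A hA => Pool.Agent.H921.QP.final_A hr hm (hA t1 ht1)⟩
  have h3 : ρ t1 ^ 2 ≤ 4 * m ^ 2 := by nlinarith
  have hp := Real.pi_pos
  nlinarith

end Pool.Agent.Results.MP_ede089_mp.QuasiSphericalData
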